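import Pool.Agent.H849.IS.Loc

/-!
# The weight-monodromy conjecture is local for reductions with isolated singularities

Let `X` be a smooth proper variety of dimension `n` over the local field `K`, with a proper flat model
whose special fibre `Y` has only isolated singularities (the model is smooth over the ring of integers
outside of a finite set `σ` of closed points, and a relative complete intersection at these points).
No semistable model is used.  After a finite extension of `K` inertia acts unipotently.  The known
facts on the cohomology of `X` (SGA 7, Weil II, de Jong, Rapoport-Zink) are listed in the structure
`Model.IsModel`: the vanishing cycles are concentrated in the degree `n` and in the points `x ∈ σ`,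
`N = j ∘ var ∘ s`, the kernel of `s : H^n(X) → ⨁ Φ x` has weights at most `n` and its cokernel
has weights at most `n + 1`.  The dimension of this cokernel is the defect, it is the dimension of the
kernel of `H^(n + 1)(Y) → H^(n + 1)(X)`.

**Theorem.** Suppose that (the vanishing cohomology of) each singular point `x` of `Y` occurs more than
`d` times on the reduction of some variety with defect `d` for which the conjecture is true
(`Sing.Occurs`). Then

1. the conjecture is true for `H^m(X)` for all `m ≠ n`;
2. `N ^ k` is an isomorphism from the part of weight `n + k` to the part of weight `n - k` of `H^n(X)`
   for all `k ≥ 2`, whatever the defect of `X` is;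
3. the kernel of `N` on the part of weight `n + 1` has at most the dimension of the defect of `X`;
4. the conjecture is true for `H^n(X)` if and only if the local form `(φ, φ') ↦ ⟨φ, var φ'⟩` is
   nondegenerate on the space of the `φ` of weight `n + 1` with `j (var φ) = 0` (the relations between
   the vanishing cycles; a condition on the position of this space);
5. if the defect of `X` is zero then the conjecture is true for `X`, in all degrees.

*Remarks (not part of the Lean theorem).* Let `x` be an isolated hypersurface singularity over the ring
of integers. It is finitely determined (Samuel, Tougeron), so it is the only singular point of the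
special fibre of a hypersurface `Y_0` in the projective space, in the point `(1 : … : 1)`, transversal
to the coordinate hyperplanes. The inverse image of `Y_0` under `(t_i) ↦ (t_i ^ a)`, `p ∤ a`, has
`a ^ (n + 1)` such points, and its defect is `O(a ^ n)`, as the cohomology of the special fibre with
coefficients in the generic Kummer sheaves is concentrated in the degree `n`. By the theorem of Scholze
the conjecture is true for smooth hypersurfaces. So the hypothesis of the theorem is satisfied by all
isolated hypersurface singularities. For ordinary double points and `n` odd condition 4 says that the
space of the linear relations between the vanishing cycles is nondegenerate for the standard form.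
-/

set_option autoImplicit false

open Module

universe v w

namespace Pool.Agent.Results.MP_cd312e_ag.IsolatedSingularities

open Pool.Agent.H849.IS Pool.Agent.K7.H9.ND Pool.Agent.Y163.MW Pool.Agent.Y143

theorem result {Ω : Type w} [Field Ω] [CharZero Ω] [IsAlgClosed Ω] {q : ℕ} (hq : 1 < q)
    {M : Model.{v, w} Ω} (hM : M.IsModel q) (hocc : ∀ x, (M.sing x).Occurs q M.n) :
    (∀ m, m ≠ M.n → (M.H m).Pure q m) ∧
    (∀ k : ℕ, 2 ≤ k → WtIso q (M.H M.n).F ((M.H M.n).N ^ k) (M.n + k) (M.n - k)) ∧
    M.kerDim q ≤ M.defect ∧ ((M.H M.n).Pure q M.n ↔ M.RelNondeg q) ∧
    (M.defect = 0 → ∀ m, (M.H m).Pure q m) := by
  have hloc : ∀ x k, (M.sing x).LocPure q M.n k := fun x k => locPure_of_occurs hq (hocc x) k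
  refine ⟨fun m hm => Model.pure_other hM hq hm, fun k hk => Model.bijective_two hM hq hloc hk,
    Model.kerDim_le hM hq hloc, Model.pure_iff_relations hM hq hloc, fun hd m => ?_⟩
  by_cases hm : m = M.n
  · subst hm
    exact Model.pure_of_defect hM hq hloc hd
  · exact Model.pure_other hM hq hm

end Pool.Agent.Results.MP_cd312e_ag.IsolatedSingularities
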