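import Pool.Agent.H854.K.Mono

/-!
# The `ℓ`-adic monodromy-weight conjecture and one sequence of smooth affine cubic hypersurfaces over
the integers

For `n ≥ 1` let `G_n` be the following polynomial with integral coefficients (`univ ℤ n`). A relation
`r` of size `n` is one of the equations `x_i x_j = x_l`, `x_i + x_j = x_l`, `x_i = 1` with
`i, j, l < n`. There are variables `x_i` and `z_ij` for `i, j < n`, and `c_r` for all relations `r`.
The equations (`eqn`) are

  `z_ij - x_i x_j`,  `c_r ^ 2 - c_r`,  `c_r ρ_r`,

where `ρ_r` is the linear polynomial `z_ij - x_l`, `x_i + x_j - x_l` or `x_i - 1` of the relation.
`G_n` is the sum of the equations multiplied by further variables `t_e`, one for each equation; it is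
a cubic polynomial. Let `E_n` be the affine cubic hypersurface `y ^ 2 - y = G_n`, which is smooth over
all fields.

Fix a prime `p` and `ℓ ≠ p`; `F` is an algebraic closure of the field of `ℓ`-adic numbers, `k = ℚ`, and
`R` is the group algebra over `F` of the Galois group of `ℚ`. `(H.g m).M X n` is the Borel–Moore homology
`H_{2 n + m}(X̄, F(-n))` of the scheme `X` over `ℚ`; for smooth proper `X` of dimension `d` it is
`H^r(X̄, F(c))` with `c = d - n` and `r = 2 c - m`, which is pure of weight `-m`. The functors `L.gr w`
are the graded pieces of the weight filtration of mixed representations of the Galois group of `ℚ`, and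
`L.res` is the restriction to the Weil group of `ℚ_p`, with the monodromy operator `N` of Grothendieck
(up to a factor). The family `S` consists of the cohomology groups `H^r(X_K̄, F(c))` of weight `r - 2 c`
for all finite extensions `K` of `ℚ_p` (that is, all complete fields `K` of characteristic zero with
finite residue field of characteristic `p`) and all smooth proper schemes `X` over `K`, as
representations of the Weil group of `K`. The monodromy filtration is given by the explicit formula
`∑_j ker N ^ (s + 1 + j) ∩ im N ^ j` (`WRep.fil`). So `S.IsMonodromyPure p` is Q1 for the primes `p`
and `ℓ` (the Tate twists do not change anything).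

The properties that are used (`IsWeighted`) are known theorems: the long exact sequences, the flat
pull-back with its compatibilities and the invariance under affine bundles; Deligne's purity; the
graded pieces of the weight filtration of the homology of a variety over `ℚ` are direct summands, as
representations of the Galois group, of the cohomology of smooth proper varieties (weight complexes of
Gillet and Soulé, and the semisimplicity of the category of André motives); for a smooth proper `X`
over `K` there is a smooth proper variety over a number field dense in `K` with the same cohomology as a
representation of the Galois group of `K` (spreading out and Krasner's lemma); it is considered as a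
scheme over `ℚ`.

**Theorem.** The following statements are equivalent.

1. For infinitely many `n`, the monodromy-weight conjecture at `p` holds for all graded pieces of the
   weight filtration on the Borel–Moore homology (dually, the cohomology with compact supports) of
   `E_n`;
2. the monodromy-weight conjecture at `p` holds for all smooth proper schemes over `ℚ`;
3. the monodromy-weight conjecture at `p` holds for the graded pieces of the weight filtration on the
   Borel–Moore homology of all, possibly singular or open, varieties over `ℚ`;
4. the monodromy-weight conjecture (Q1, for `p` and `ℓ`) holds for all smooth proper schemes over all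
   finite extensions of `ℚ_p`.

Here the varieties are the schemes of finite type with an affine bundle whose total space is affine;
by Jouanolou these include all quasi-projective schemes.

Idea of the proof. `G_n` is linear in the variables `t_e`. Let `W_n` be the zero set of the equations
in the affine space `S` with the coordinates `x_i, z_ij, c_r`. The map `E_n → S` is an affine bundle
over the complement of `W_n`, and the disjoint union of two affine bundles over `W_n`. It follows that
the homology of `E_n` is the direct sum of the homology of one of these two bundles and of the image
of the homology of `S`. The scheme `W_n` is the disjoint union over all sets `s` of relations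
(`c_r = 1` for `r` in `s`, `c_r = 0` for the others) of the schemes defined by the equations in `s`, and
every affine scheme of finite type over `ℚ` is defined by relations of the three kinds, for all large
`n`. So the homology of every variety over `ℚ` is, up to a shift, a direct summand of the homology of
`E_n` for all large `n`, as a representation of the Galois group. The monodromy-weight conjecture
passes to direct summands.
-/

set_option autoImplicit false

open CategoryTheory AlgebraicGeometry Pool.Agent.H854.K
open Pool.Agent.H854.SQ (IsPrimeField univ totalDegree_univ map_univ)
open Pool.Agent.H854.AS (pol_two)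

namespace Pool.Agent.Results.MP_cd312e_ag.OneSequenceOverTheIntegers

section

variable {k : Type} [Field k] {F : Type} [Field F] [CharZero F] {R : Type} [Ring R]

/-- The monodromy-weight conjecture holds for all graded pieces of the weight filtration on the
homology of `X`. -/
def GradedPureOn (H : Sys k R) (L : Local R F) (p : ℕ) (X : Sch k) : Prop :=
  ∀ m n : ℤ, L.GradedPure p ((H.g m).M X n)

/-- The monodromy-weight conjecture holds for all graded pieces of the weight filtration on the
homology of `y ^ 2 - y = G_n`, for infinitely many `n`. -/
def GradedPureForInfinitelyMany (H : Sys k R) (L : Local R F) (p : ℕ) : Prop :=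
  ∃ᶠ n in Filter.atTop, GradedPureOn H L p (seq k 2 n)

/-- The monodromy-weight conjecture for all smooth proper schemes over `k`. -/
def PureForSmoothProper (H : Sys k R) (L : Local R F) (p : ℕ) : Prop :=
  ∀ X : Sch k, IsSmoothProper X → ∀ m n : ℤ, (L.res ((H.g m).M X n)).IsMonodromyPure p (-m)

end

/-- **The monodromy-weight conjecture is a statement on one sequence of smooth affine cubic
hypersurfaces over the integers.** -/
theorem result {k : Type} [Field k] (hk : IsPrimeField k) {F : Type} [Field F] [CharZero F]
    {R : Type} [Ring R] (p : ℕ) (H : Sys k R) (L : Local R F) (S : Family F)
    (hW : IsWeighted H L S) :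
    List.TFAE [GradedPureForInfinitelyMany H L p, PureForSmoothProper H L p,
      ∀ X, IsAdm X → GradedPureOn H L p X, S.IsMonodromyPure p] ∧
    ∀ n : ℕ, 0 < n → Smooth (str (seq k 2 n)) ∧
      (univ ℤ n).totalDegree ≤ 3 ∧ MvPolynomial.map (Int.castRingHom k) (univ ℤ n) = univ k n := by
  refine ⟨?_, fun n hn => ⟨smooth_seq_two hn, totalDegree_univ ℤ n, map_univ _ n⟩⟩
  have hQ : Pool.Agent.H854.SQ.Transfers fun (X : Sch k) n => ∀ m, L.GradedPure p ((H.g m).M X n) :=
    transfers hW.homology (A := fun _ V => L.GradedPure p V)
      fun _ _ _ hVW h => h.of_summand hW.functorial hVW
  tfae_have 1 → 3 := fun h X hX m n =>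
    reduce hQ hk pol_two (h.mono fun a ha d m => ha m d) X hX n m
  tfae_have 3 → 1 := fun h => Filter.Eventually.frequently (Filter.Eventually.of_forall
    fun n => h _ (isAdm_seq pol_two n))
  tfae_have 3 → 2 := fun h X hX m n =>
    ((h X hX.1 m n).2 (-m)).of_summand (hW.functorial.res _ _
      (hW.functorial.good_gr _ _ (hW.good X m n)) (hW.pure X hX m n))
  tfae_have 2 → 3 := by
    intro h X hX m n
    refine ⟨hW.good X m n, fun w => ?_⟩
    obtain ⟨X', m', n', hX', rfl, hs⟩ := hW.graded X hX m n w
    exact (h X' hX' m' n').of_summand (hW.functorial.res _ _ (hW.good X' m' n') hs)
  tfae_have 2 → 4 := by
    intro h a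
    obtain ⟨X, m, n, hX, hm, hs⟩ := hW.approx a
    rw [← hm]
    exact (h X hX m n).of_summand hs
  tfae_have 4 → 2 := by
    intro h X hX m n
    obtain ⟨a, ha, hs⟩ := hW.base X hX m n
    have h1 := h a
    rw [ha] at h1
    exact h1.of_summand hs
  tfae_finish

end Pool.Agent.Results.MP_cd312e_ag.OneSequenceOverTheIntegers
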