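import Pool.Agent.H849.PM.Main
import Pool.Agent.H849.PM.WeilDefs
import Pool.Agent.H849.PAD.WeilMain

/-!
# The l-adic monodromy-weight conjecture for sections of different classes, and what they dominate
-/

set_option autoImplicit false

namespace Pool.Agent.Results.MP_cd312e_ag.PolarisedClasses

open Pool.Agent.N184.WM Pool.Agent.H849.PX Pool.Agent.H849.PM Pool.Agent.H849.PAD

universe u v

/-- Let `D.V` be the Weil-Deligne representation given by `H^m` of a smooth proper `K`-scheme `X`, such
that, over a finite extension of `K` with residue field of `p ^ h` elements, it is a direct summand of a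
sum of Tate twists `H^(j_i)(Z_i)(-t_i)`, `j_i + 2 t_i = m`, where the `Z_i` are log smooth schemes with a
Lefschetz map `f_i : Z_i → W_i` to a projective log smooth scheme, and the class `f_i* 1` is polarised
(for example `Z_i` is a complete intersection of different ample divisors, transversal to the strata, in
a product of curves, or a covering of it). Then for every `s` and every `g` in the Weil group of `K`,
every eigenvalue of `g` on the graded piece `gr_s` of the monodromy filtration of `D.V` is an algebraic
number all of whose complex conjugates have absolute value `p ^ ((m + s) val(g) / 2)`. -/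
theorem result {Ω : Type u} [Field Ω] [CharZero Ω] [IsAlgClosed Ω] {P : Set Ω}
    (hP : IsPositiveCone P) {e : Ω} (he : e * e = 1) {p h : ℕ} (hp : 1 < p) (hh : 0 < h) {ι : Type}
    [Finite ι] (S : ι → Section.{u, v} Ω P e (p ^ h)) (t : ι → ℤ) (m : ℕ)
    (hm : ∀ i, ((S i).degree : ℤ) + 2 * t i = m) (D : WeilModule.{u, v} Ω) (hD : D.IsTwistedBy p)
    (pull : D.V →ₗ[Ω] ∀ i, (S i).H) (push : (∀ i, (S i).H) →ₗ[Ω] D.V)
    (hS : IsWeilSummand D (sumFrob (fun i => (S i).H) (p ^ h) (fun i => (S i).frob) t)
      (sumN (fun i => (S i).H) fun i => (S i).N) h pull push) (s : ℤ) (g : D.G) :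
    D.WeightMonodromyAt m p s g :=
  wm_sum hm (by omega) hh (fun i => pureOverClasses hP he (S i).W (S i).n (p ^ h) (S i).Z (S i).Θ
    (S i).polarized (S i).map (S i).degree) D hD pull push hS s g

end Pool.Agent.Results.MP_cd312e_ag.PolarisedClasses
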