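import Pool.Agent.H849.PW.Pos

/-!
# Products of several schemes with bad reduction

Let `X_1, …, X_s` be projective log smooth schemes over `O` with polarizations `L_i`, such that the
middle cohomology of their sections is mw pure (this is known if the dimensions are at most two), and
`G` a projective scheme of good reduction. We consider the log smooth schemes `Z` with a Lefschetz map
to `X_1 × ⋯ × X_s × G` of class `∑ L ^ i ⊗ β_i`, where `L = t_1 L_1 + ⋯ + t_s L_s`, for example the
complete intersections of divisors of the classes `a_j L + b_j`, `b_j` a divisor class on `G`. All the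
cohomology groups of their generic fibres are mw pure,

* if `∑ μ_i / t_i ≠ 0` for all `μ ≠ 0` in the finite set of the families of eigenvalues of the `Δ_i`
  (and zeros);
* for all positive rational `t_i`, if the nonzero eigenvalues of the `Δ_i` are totally positive (or all
  totally negative, according to the sign conventions), in particular if the `X_i` are curves and
  surfaces.
-/

set_option autoImplicit false

namespace Pool.Agent.Results.MP_cd312e_ag.SeveralBadFactors

open Pool.Agent.H849.PW

universe u v

theorem result {Ω : Type u} [Field Ω] [CharZero Ω] [IsAlgClosed Ω] {s : ℕ}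
    (A : Fin s → Factor.{u, v} Ω) :
    (∃ H : Finset (Fin s → Ω), (∀ μ, μ ∈ H ↔ μ ≠ 0 ∧ ∀ i, μ i = 0 ∨ (A i).IsEigenvalue (μ i)) ∧
      ∀ t : Fin s → Ω, (∀ i, t i ≠ 0) → (∀ μ ∈ H, ∑ i, (t i)⁻¹ * μ i ≠ 0) → PureOver A t) ∧
    ∀ e : Ω, (∀ i, (A i).IsDefinite e ∨ (A i).IsSurface e) →
      ∀ t : Fin s → ℚ, (∀ i, 0 < t i) → PureOver A fun i => (t i : Ω) :=
  ⟨exists_conditions A, fun e h t ht => pureOver_of_definite A e h t ht⟩

end Pool.Agent.Results.MP_cd312e_ag.SeveralBadFactors
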